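import Pool.Agent.R174.PlV

/-!
# MP_ad0d06_co, Q1: `ext_D(ℝ², E(2)) = 7`

The conjecture of Ferrara, Gethner, Hartke, Stolee and Wenger.
-/

namespace Pool.Agent.Results.MP_ad0d06_co.PlaneExtensionSeven

open Pool.Agent.R174.Pl ComplexConjugate

/-- A `k`-colouring is `Γ`-distinguishing if only the identity preserves it. -/
def Distinguishing (Γ : Type*) {X : Type*} [Group Γ] [MulAction Γ X] {k : ℕ}
    (c : X → Fin k) : Prop :=
  ∀ γ : Γ, (∀ x, c (γ • x) = c x) → γ = 1

/-- The distinguishing number `D_Γ(X)`. -/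
noncomputable def distNumber (Γ X : Type*) [Group Γ] [MulAction Γ X] : ℕ :=
  sInf {k : ℕ | ∃ c : X → Fin k, Distinguishing Γ c}

/-- `W` has trivial pointwise stabiliser. -/
def Admissible (Γ : Type*) {X : Type*} [Group Γ] [MulAction Γ X] (W : Set X) : Prop :=
  ∀ γ : Γ, (∀ x ∈ W, γ • x = x) → γ = 1

/-- Every `k`-colouring of the complement of `W` extends to a `Γ`-distinguishing `k`-colouring. -/
def ExtProp (Γ : Type*) {X : Type*} [Group Γ] [MulAction Γ X] (k : ℕ) (W : Set X) : Prop :=
  ∀ c : {x : X // x ∉ W} → Fin k,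
    ∃ c' : X → Fin k, (∀ x : {x : X // x ∉ W}, c' x = c x) ∧ Distinguishing Γ c'

/-- The distinguishing extension number `ext_D(X, Γ)` (it is `⊤` if there is no such `n`). -/
noncomputable def extD (Γ X : Type*) [Group Γ] [MulAction Γ X] : ℕ∞ :=
  sInf {N : ℕ∞ | ∃ n : ℕ, N = n ∧
    ∀ W : Set X, Admissible Γ W → (n : ℕ∞) ≤ W.encard → ExtProp Γ (distNumber Γ X) W}

/-- `E(2)`, as a group of permutations of `ℝ²`: the maps `v ↦ A v + b` with `A ∈ O(2)`. -/
def E2 : Subgroup (Equiv.Perm (Fin 2 → ℝ)) where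
  carrier := {σ | ∃ A ∈ Matrix.orthogonalGroup (Fin 2) ℝ, ∃ b : Fin 2 → ℝ,
    ∀ v, σ v = A.mulVec v + b}
  one_mem' := ⟨1, one_mem _, 0, fun v => by simp⟩
  mul_mem' := by
    rintro σ τ ⟨A, hA, a, ha⟩ ⟨B, hB, b, hb⟩
    refine ⟨A * B, mul_mem hA hB, A.mulVec b + a, fun v => ?_⟩
    rw [Equiv.Perm.mul_apply, hb, ha, Matrix.mulVec_add, Matrix.mulVec_mulVec, add_assoc]
  inv_mem' := by
    rintro σ ⟨A, hA, a, ha⟩
    refine ⟨star A, Unitary.star_mem hA, -(star A).mulVec a, fun v => ?_⟩
    rw [Equiv.Perm.inv_def, Equiv.symm_apply_eq, ha, Matrix.mulVec_add, Matrix.mulVec_neg,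
      Matrix.mulVec_mulVec, Matrix.mulVec_mulVec]
    have h3 : A * star A = 1 := (Matrix.mem_orthogonalGroup_iff _ _).1 hA
    rw [h3]; simp

/-- The plane as complex numbers. -/
noncomputable def e : (Fin 2 → ℝ) ≃ ℂ where
  toFun v := ⟨v 0, v 1⟩
  invFun z := ![z.re, z.im]
  left_inv v := by
    ext i; fin_cases i <;> rfl
  right_inv z := rfl

lemma e_re (v : Fin 2 → ℝ) : (e v).re = v 0 := rfl

lemma e_im (v : Fin 2 → ℝ) : (e v).im = v 1 := rfl

lemma mv (A : Matrix (Fin 2) (Fin 2) ℝ) (v b : Fin 2 → ℝ) (i : Fin 2) :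
    (A.mulVec v + b) i = A i 0 * v 0 + A i 1 * v 1 + b i := by
  have h : A.mulVec v i = ∑ j, A i j * v j := rfl
  rw [Pi.add_apply, h, Fin.sum_univ_two]

lemma e2_complex (γ : E2) : ∃ g : Equiv.Perm ℂ, IsIso g ∧ (∀ v, e (γ • v) = g (e v)) ∧
    (g = 1 → γ = 1) := by
  obtain ⟨σ, A, hA, b, hb⟩ := γ
  have h2 : star A * A = 1 := (Matrix.mem_orthogonalGroup_iff' _ _).1 hA
  have hdet : (A 0 0 * A 1 1 - A 0 1 * A 1 0) ^ 2 = 1 := by
    have := congrArg Matrix.det h2
    rw [Matrix.det_mul, Matrix.star_eq_conjTranspose, Matrix.det_conjTranspose, Matrix.det_one,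
      Matrix.det_fin_two] at this
    rw [star_trivial] at this
    linear_combination this
  have e00 := congrFun (congrFun h2 0) 0
  have e01 := congrFun (congrFun h2 0) 1
  have e11 := congrFun (congrFun h2 1) 1
  simp [Matrix.mul_apply, Fin.sum_univ_two, Matrix.star_apply] at e00 e01 e11
  have hsm : ∀ v : Fin 2 → ℝ, (⟨σ, A, hA, b, hb⟩ : E2) • v = σ v := fun v => rfl
  have hun : ‖(⟨A 0 0, A 1 0⟩ : ℂ)‖ = 1 := by
    have h3 : ‖(⟨A 0 0, A 1 0⟩ : ℂ)‖ ^ 2 = 1 := by
      rw [Complex.sq_norm, Complex.normSq_mk]; exact e00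
    have h4 := norm_nonneg (⟨A 0 0, A 1 0⟩ : ℂ)
    nlinarith
  refine ⟨e.symm.trans (σ.trans e), ?_, ?_, ?_⟩
  · refine ⟨⟨A 0 0, A 1 0⟩, ⟨b 0, b 1⟩, hun, ?_⟩
    have hd : (A 0 0 * A 1 1 - A 0 1 * A 1 0 - 1) * (A 0 0 * A 1 1 - A 0 1 * A 1 0 + 1) = 0 := by
      linear_combination hdet
    have hgz : ∀ z, (e.symm.trans (σ.trans e)) z = e (A.mulVec (e.symm z) + b) := by
      intro z
      simp only [Equiv.trans_apply]
      rw [hb]
    have s0 : ∀ z : ℂ, (e.symm z) 0 = z.re := fun z => rfl
    have s1 : ∀ z : ℂ, (e.symm z) 1 = z.im := fun z => rfl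
    rcases mul_eq_zero.1 hd with hd | hd
    · left
      have hs : A 1 1 = A 0 0 := by
        linear_combination (-A 1 1) * e00 + A 0 0 * hd + A 1 0 * e01
      have hq : A 0 1 = - A 1 0 := by
        linear_combination (-A 0 1) * e00 + A 0 0 * e01 - A 1 0 * hd
      intro z
      rw [hgz]
      apply Complex.ext
      · rw [e_re, mv, hq, Complex.add_re, Complex.mul_re, s0, s1]; ring
      · rw [e_im, mv, hs, Complex.add_im, Complex.mul_im, s0, s1]; ring
    · right
      have hs : A 1 1 = - A 0 0 := by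
        linear_combination (-A 1 1) * e00 + A 0 0 * hd + A 1 0 * e01
      have hq : A 0 1 = A 1 0 := by
        linear_combination (-A 0 1) * e00 + A 0 0 * e01 - A 1 0 * hd
      intro z
      rw [hgz]
      apply Complex.ext
      · rw [e_re, mv, hq, Complex.add_re, Complex.mul_re, s0, s1, Complex.conj_re,
          Complex.conj_im]; ring
      · rw [e_im, mv, hs, Complex.add_im, Complex.mul_im, s0, s1, Complex.conj_re,
          Complex.conj_im]; ring
  · intro v
    rw [hsm]
    simp only [Equiv.trans_apply, Equiv.symm_apply_apply]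
  · intro hg
    apply Subtype.ext
    apply Equiv.ext
    intro v
    show σ v = v
    have := congrArg (fun h : Equiv.Perm ℂ => h (e v)) hg
    simp only [Equiv.trans_apply, Equiv.symm_apply_apply, Equiv.Perm.coe_one, id] at this
    exact e.injective this

/-- every reflection `z ↦ k conj z + b` with a fixed point comes from `E(2)` -/
lemma refl_mem (k b : ℂ) (hk : ‖k‖ = 1) :
    ∃ γ : E2, γ ≠ 1 ∧ ∀ v, e (γ • v) = k * conj (e v) + b := by
  have hkk : k.re ^ 2 + k.im ^ 2 = 1 := by
    have := Complex.sq_norm k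
    rw [hk, Complex.normSq_apply] at this
    linarith
  set M : Matrix (Fin 2) (Fin 2) ℝ := !![k.re, k.im; k.im, -k.re] with hM
  have hMo : M ∈ Matrix.orthogonalGroup (Fin 2) ℝ := by
    rw [Matrix.mem_orthogonalGroup_iff]
    ext i j
    fin_cases i <;> fin_cases j <;>
      simp [hM, Matrix.mul_apply, Fin.sum_univ_two] <;> nlinarith
  have hMM : M * M = 1 := by
    ext i j
    fin_cases i <;> fin_cases j <;>
      simp [hM, Matrix.mul_apply, Fin.sum_univ_two] <;> nlinarith
  set c : Fin 2 → ℝ := ![b.re, b.im] with hc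
  let σ : Equiv.Perm (Fin 2 → ℝ) :=
    { toFun := fun v => M.mulVec v + c
      invFun := fun v => M.mulVec (v - c)
      left_inv := fun v => by
        simp only [add_sub_cancel_right, Matrix.mulVec_mulVec, hMM, Matrix.one_mulVec]
      right_inv := fun v => by
        simp only [Matrix.mulVec_mulVec, hMM, Matrix.one_mulVec, sub_add_cancel] }
  have hσ : ∀ v, σ v = M.mulVec v + c := fun v => rfl
  have hmem : σ ∈ E2 := ⟨M, hMo, c, hσ⟩
  have hform : ∀ v, e ((⟨σ, hmem⟩ : E2) • v) = k * conj (e v) + b := by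
    intro v
    show e (σ v) = _
    rw [hσ]
    apply Complex.ext
    · rw [e_re, mv, Complex.add_re, Complex.mul_re, Complex.conj_re, Complex.conj_im, e_re, e_im]
      simp [hM, hc]
    · rw [e_im, mv, Complex.add_im, Complex.mul_im, Complex.conj_re, Complex.conj_im, e_re, e_im]
      simp [hM, hc]; ring
  refine ⟨⟨σ, hmem⟩, ?_, hform⟩
  intro h1
  have f0 := hform (e.symm 0)
  have f1 := hform (e.symm 1)
  have f2 := hform (e.symm Complex.I)
  rw [h1, one_smul, Equiv.apply_symm_apply] at f0 f1 f2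
  simp only [map_zero, mul_zero, zero_add, map_one, mul_one, Complex.conj_I] at f0 f1 f2
  rw [← f0] at f1 f2
  have hk1 : k = 1 := by linear_combination -f1
  rw [hk1] at f2
  have h3 : (2 : ℂ) * Complex.I = 0 := by linear_combination f2
  have := congrArg Complex.im h3
  simp at this

/-- Extension for large admissible sets. -/
lemma ext_large (W : Set (Fin 2 → ℝ)) (hadm : Admissible E2 W) (hW : (7 : ℕ∞) ≤ W.encard) :
    ExtProp E2 2 W := by
  classical
  intro c
  obtain ⟨T, hTW, hT⟩ := Set.exists_subset_encard_eq hW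
  have hTfin : T.Finite := Set.finite_of_encard_eq_coe (k := 7) (by rw [hT]; rfl)
  set F : Finset (Fin 2 → ℝ) := hTfin.toFinset with hF
  have hFc : F.card = 7 := by
    have : (F.card : ℕ∞) = 7 := by
      rw [← Set.encard_coe_eq_coe_finsetCard, hF, Set.Finite.coe_toFinset, hT]
    exact_mod_cast this
  have hFW : ∀ v ∈ F, v ∈ W := fun v hv => hTW (by rwa [hF, Set.Finite.mem_toFinset] at hv)
  -- three points not on a line
  obtain ⟨v1, hv1, v2, hv2, hv12⟩ := Finset.one_lt_card.1 (show 1 < F.card by omega)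
  have h12 : e v1 - e v2 ≠ 0 := sub_ne_zero.2 (fun h => hv12 (e.injective h))
  have h12c : conj (e v1 - e v2) ≠ 0 := (map_ne_zero _).2 h12
  set k : ℂ := (e v1 - e v2) / conj (e v1 - e v2) with hk
  have hkn : ‖k‖ = 1 := by
    rw [hk, norm_div, Complex.norm_conj, div_self (norm_ne_zero_iff.2 h12)]
  set b : ℂ := e v1 - k * conj (e v1) with hb
  obtain ⟨v3, hv3W, hv3⟩ : ∃ v3 ∈ W, k * conj (e v3) + b ≠ e v3 := by
    by_contra hcon
    push Not at hcon
    obtain ⟨γ, hγ1, hγ⟩ := refl_mem k b hkn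
    apply hγ1
    apply hadm
    intro v hv
    apply e.injective
    rw [hγ, hcon v hv]
  set F' : Finset (Fin 2 → ℝ) := insert v3 F with hF'
  have hF'W : ∀ v ∈ F', v ∈ W := by
    intro v hv
    rw [hF', Finset.mem_insert] at hv
    rcases hv with rfl | hv
    · exact hv3W
    · exact hFW v hv
  set V : Finset ℂ := F'.map e.toEmbedding with hV
  have hVm : ∀ v, e v ∈ V ↔ v ∈ F' := by
    intro v
    rw [hV, Finset.mem_map_equiv, Equiv.symm_apply_apply]
  have hVc : 7 ≤ V.card := by
    rw [hV, Finset.card_map, hF', ← hFc]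
    exact Finset.card_le_card (Finset.subset_insert _ _)
  have hnc : NonCol V := by
    intro k' b' hk'
    by_contra hcon
    push Not at hcon
    have w1 := hcon (e v1) ((hVm v1).2 (Finset.mem_insert_of_mem hv1))
    have w2 := hcon (e v2) ((hVm v2).2 (Finset.mem_insert_of_mem hv2))
    have w3 := hcon (e v3) ((hVm v3).2 (Finset.mem_insert_self _ _))
    have hkk : k' = k := by
      rw [hk, eq_div_iff h12c, map_sub]
      linear_combination w1 - w2
    have hbb : b' = b := by
      rw [hb]; rw [hkk] at w1; linear_combination w1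
    rw [hkk, hbb] at w3
    exact hv3 w3
  set A : Set ℂ := {z | ∃ h : e.symm z ∉ W, c ⟨e.symm z, h⟩ = 1} with hA
  have hAV : ∀ w ∈ V, w ∉ A := by
    intro w hw hwA
    obtain ⟨h, -⟩ := hwA
    apply h
    apply hF'W
    rw [← hVm, Equiv.apply_symm_apply]
    exact hw
  obtain ⟨S, hSV, hS⟩ := exists_extension7 A V hVc hnc hAV
  refine ⟨fun v => if e v ∈ A ∨ e v ∈ S then 1 else 0, ?_, ?_⟩
  · rintro ⟨v, hv⟩
    have h1 : e v ∉ S := by
      intro h
      exact hv (hF'W v ((hVm v).1 (hSV h)))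
    have h2 : e v ∈ A ↔ c ⟨v, hv⟩ = 1 := by
      constructor
      · rintro ⟨h, h'⟩
        have : (⟨e.symm (e v), h⟩ : {x : Fin 2 → ℝ // x ∉ W}) = ⟨v, hv⟩ :=
          Subtype.ext (Equiv.symm_apply_apply _ _)
        rw [this] at h'
        exact h'
      · intro h
        have h' : e.symm (e v) ∉ W := by rw [Equiv.symm_apply_apply]; exact hv
        refine ⟨h', ?_⟩
        have : (⟨e.symm (e v), h'⟩ : {x : Fin 2 → ℝ // x ∉ W}) = ⟨v, hv⟩ :=
          Subtype.ext (Equiv.symm_apply_apply _ _)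
        rw [this]
        exact h
    by_cases h3 : c ⟨v, hv⟩ = 1
    · simp only [h2, h3, true_or, if_true]
    · have h4 : c ⟨v, hv⟩ = 0 := by
        generalize c ⟨v, hv⟩ = t at h3
        fin_cases t
        · rfl
        · exact absurd rfl h3
      have h5 : ¬ (e v ∈ A ∨ e v ∈ S) := by
        rintro (h | h)
        · exact h3 (h2.1 h)
        · exact h1 h
      simp only [h5, if_false, h4]
  · intro γ hγ
    obtain ⟨g, hg, hge, huniq⟩ := e2_complex γ
    apply huniq
    apply hS g hg
    intro z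
    have h1 := hγ (e.symm z)
    simp only [hge, Equiv.apply_symm_apply] at h1
    by_cases h2 : (g z ∈ A ∨ g z ∈ S) <;> by_cases h3 : (z ∈ A ∨ z ∈ S)
    · exact ⟨fun _ => h3, fun _ => h2⟩
    · rw [if_pos h2, if_neg h3] at h1
      exact absurd h1 (by decide)
    · rw [if_neg h2, if_pos h3] at h1
      exact absurd h1 (by decide)
    · exact ⟨fun h => absurd h h2, fun h => absurd h h3⟩

lemma univ_admissible : Admissible E2 (Set.univ : Set (Fin 2 → ℝ)) := by
  intro γ hγ
  apply Subtype.ext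
  apply Equiv.ext
  intro v
  exact hγ v (Set.mem_univ _)

lemma exists_distinguishing : ∃ c : (Fin 2 → ℝ) → Fin 2, Distinguishing E2 c := by
  have hinf : (Set.univ : Set (Fin 2 → ℝ)).encard = ⊤ := by
    rw [Set.encard_eq_top_iff]
    exact Set.infinite_univ
  obtain ⟨c', -, hc'⟩ := ext_large Set.univ univ_admissible (by rw [hinf]; exact le_top)
    (fun x => absurd (Set.mem_univ _) x.2)
  exact ⟨c', hc'⟩

lemma distNumber_eq : distNumber E2 (Fin 2 → ℝ) = 2 := by
  apply le_antisymm
  · exact Nat.sInf_le exists_distinguishing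
  · refine le_csInf ⟨2, exists_distinguishing⟩ ?_
    rintro k ⟨c, hc⟩
    by_contra hk
    have hk' : k = 0 ∨ k = 1 := by omega
    rcases hk' with rfl | rfl
    · exact (c 0).elim0
    · obtain ⟨γ, hγ1, -⟩ := refl_mem 1 0 (by simp)
      exact hγ1 (hc _ fun x => Subsingleton.elim _ _)

lemma refl_inv (k : ℂ) (hk : ‖k‖ = 1) (z : ℂ) : k * conj (k * conj z) = z := by
  have := unit_mul_conj hk
  rw [map_mul, Complex.conj_conj]
  linear_combination z * this

/-- primitive fifth root of unity -/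
noncomputable def om : ℂ := Complex.exp (2 * Real.pi * Complex.I / 5)

lemma om_prim : IsPrimitiveRoot om 5 := Complex.isPrimitiveRoot_exp 5 (by norm_num)

lemma om_norm : ‖om‖ = 1 := by
  have := om_prim.norm'_eq_one (by norm_num)
  exact this

/-- the vertices of the regular pentagon -/
noncomputable def vert (k : ZMod 5) : ℂ := om ^ k.val

lemma vert_norm (k : ZMod 5) : ‖vert k‖ = 1 := by
  unfold vert; rw [norm_pow, om_norm, one_pow]

lemma vert_ne (k : ZMod 5) : vert k ≠ 0 := unit_ne_zero (vert_norm k)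

lemma pow_mod5 {z : ℂ} (h : z ^ 5 = 1) (n : ℕ) : z ^ n = z ^ (n % 5) := by
  conv_lhs => rw [← Nat.div_add_mod n 5, pow_add, pow_mul, h, one_pow, one_mul]

lemma vert_add (j k : ZMod 5) : vert (j + k) = vert j * vert k := by
  unfold vert
  rw [ZMod.val_add, ← pow_add]
  exact (pow_mod5 om_prim.pow_eq_one _).symm

lemma vert_inj : Function.Injective vert := by
  intro j k h
  unfold vert at h
  have := om_prim.pow_inj (ZMod.val_lt j) (ZMod.val_lt k) h
  exact ZMod.val_injective 5 this

lemma vert_zero : vert 0 = 1 := by unfold vert; simp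

lemma vert_conj (m k : ZMod 5) : vert m * conj (vert k) = vert (m - k) := by
  have h1 : vert (m - k) * vert k = vert m := by rw [← vert_add, sub_add_cancel]
  rw [← h1]
  have := unit_mul_conj (vert_norm k)
  linear_combination vert (m - k) * this

/-- the pentagon together with its centre -/
def W6 : Set (Fin 2 → ℝ) := insert (e.symm 0) (Set.range fun k : ZMod 5 => e.symm (vert k))

lemma mem_W6 (v : Fin 2 → ℝ) : v ∈ W6 ↔ (e v = 0 ∨ ∃ k, vert k = e v) := by
  unfold W6
  rw [Set.mem_insert_iff, Set.mem_range]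
  constructor
  · rintro (h | ⟨k, h⟩)
    · left; rw [h, Equiv.apply_symm_apply]
    · right; exact ⟨k, by rw [← h, Equiv.apply_symm_apply]⟩
  · rintro (h | ⟨k, h⟩)
    · left; rw [← h, Equiv.symm_apply_apply]
    · right; exact ⟨k, by simp only [h, Equiv.symm_apply_apply]⟩

lemma W6_encard : W6.encard = 6 := by
  unfold W6
  rw [Set.encard_insert_of_notMem]
  · have hinj : Function.Injective fun k : ZMod 5 => e.symm (vert k) :=
      e.symm.injective.comp vert_inj
    rw [← Set.image_univ, hinj.encard_image, Set.encard_univ]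
    simp
    norm_num
  · rintro ⟨k, hk⟩
    have := e.symm.injective hk
    exact vert_ne k this

lemma W6_admissible : Admissible E2 W6 := by
  intro γ hγ
  obtain ⟨g, ⟨u, b, hu, hg⟩, hge, huniq⟩ := e2_complex γ
  apply huniq
  have hfix : ∀ v ∈ W6, g (e v) = e v := by
    intro v hv
    rw [← hge, hγ v hv]
  have f0 : g 0 = 0 := by
    have := hfix (e.symm 0) ((mem_W6 _).2 (by left; simp))
    simpa using this
  have fk : ∀ k, g (vert k) = vert k := by
    intro k
    have := hfix (e.symm (vert k)) ((mem_W6 _).2 (by right; exact ⟨k, by simp⟩))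
    simpa using this
  have f1 := fk 0
  have f2 := fk 1
  rw [vert_zero] at f1
  rcases hg with hg | hg
  · rw [hg] at f0 f1
    have hb : b = 0 := by linear_combination f0
    have hu1 : u = 1 := by linear_combination f1 - hb
    ext z
    rw [hg, hb, hu1]; simp
  · exfalso
    rw [hg] at f0 f1 f2
    rw [map_zero] at f0
    have hb : b = 0 := by linear_combination f0
    have hu1 : u = 1 := by rw [map_one] at f1; linear_combination f1 - hb
    rw [hb, hu1, one_mul, add_zero] at f2
    -- om is real: contradiction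
    have h1 := unit_mul_conj (vert_norm 1)
    rw [f2, ← vert_add] at h1
    have := vert_inj (h1.trans vert_zero.symm)
    exact absurd this (by decide)

lemma W6_not_ext : ¬ ExtProp E2 2 W6 := by
  intro h
  obtain ⟨c, hc, hd⟩ := h (fun _ => 0)
  have h0 : ∀ v, v ∉ W6 → c v = 0 := fun v hv => hc ⟨v, hv⟩
  have hdec : ∀ f : ZMod 5 → Bool, ∃ m, ∀ k, f (m - k) = f k := by decide
  obtain ⟨m, hm⟩ := hdec (fun k => decide (c (e.symm (vert k)) = 1))
  obtain ⟨γ, hγ1, hγ⟩ := refl_mem (vert m) 0 (vert_norm m)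
  simp only [add_zero] at hγ
  apply hγ1
  apply hd
  have hsm : ∀ v, γ • v = e.symm (vert m * conj (e v)) := by
    intro v
    apply e.injective
    rw [hγ, Equiv.apply_symm_apply]
  have two : ∀ s t : Fin 2, (s = 1 ↔ t = 1) → s = t := by decide
  intro v
  by_cases hv : v ∈ W6
  · rcases (mem_W6 v).1 hv with h1 | ⟨k, h1⟩
    · rw [hsm, h1, map_zero, mul_zero, ← h1, Equiv.symm_apply_apply]
    · rw [hsm, ← h1, vert_conj]
      have h2 := hm k
      have h3 : v = e.symm (vert k) := by rw [h1, Equiv.symm_apply_apply]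
      rw [h3]
      apply two
      exact decide_eq_decide.1 h2
  · have hv' : γ • v ∉ W6 := by
      intro h1
      apply hv
      rw [mem_W6] at h1 ⊢
      rw [hsm, Equiv.apply_symm_apply] at h1
      rcases h1 with h1 | ⟨k, h1⟩
      · left
        rcases mul_eq_zero.1 h1 with h2 | h2
        · exact absurd h2 (vert_ne m)
        · exact (map_eq_zero _).1 h2
      · right
        refine ⟨m - k, ?_⟩
        rw [← vert_conj, h1, refl_inv _ (vert_norm m)]
    rw [h0 v hv, h0 _ hv']

/-- **MP_ad0d06_co, Q1.** `ext_D(ℝ², E(2)) = 7`. -/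
theorem result : extD E2 (Fin 2 → ℝ) = 7 := by
  unfold extD
  rw [distNumber_eq]
  apply le_antisymm
  · apply sInf_le
    exact ⟨7, rfl, fun W hadm hW => ext_large W hadm hW⟩
  · apply le_sInf
    rintro N ⟨n, rfl, hn⟩
    by_contra hlt
    have h7 : n < 7 := by
      by_contra h
      apply hlt
      exact_mod_cast not_lt.1 h
    refine W6_not_ext (hn W6 W6_admissible ?_)
    rw [W6_encard]
    exact_mod_cast Nat.le_of_lt_succ h7

end Pool.Agent.Results.MP_ad0d06_co.PlaneExtensionSeven
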